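import Pool.Agent.Helper35.HS3.GoalsB

/-!
# Project HS3 (MP_66e6f4_an), packet LBB: lower bound of a superharmonic function by its mass
-/

namespace Pool.Agent.Helper19.HS3.LBB

open MeasureTheory Set Filter Topology Metric
open scoped ContDiff
open Pool.Agent.Helper35.HS3

theorem cont0 : Continuous (fun y : E => y 0) := (contDiff_coord 0 (n := 0)).continuous

theorem sq_one {τ : ℝ} (h : τ = 1 ∨ τ = -1) : τ * τ = 1 := by
  rcases h with rfl | rfl <;> norm_num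

theorem abs_one {τ : ℝ} (h : τ = 1 ∨ τ = -1) : |τ| = 1 := by
  rcases h with rfl | rfl <;> simp

/-- the coordinate `τ x₀` is 1-Lipschitz -/
theorem coord_lip {τ : ℝ} (h : τ = 1 ∨ τ = -1) (x y : E) : τ * y 0 - ‖x - y‖ ≤ τ * x 0 := by
  have h1 := abs_coord_le (x - y) 0
  have h2 : |τ * (x 0 - y 0)| ≤ ‖x - y‖ := by
    rw [abs_mul, abs_one h, one_mul]
    exact h1
  have h3 := (abs_le.1 h2).1
  have h4 : τ * (x 0 - y 0) = τ * x 0 - τ * y 0 := by ring
  linarith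

theorem coord_le {τ : ℝ} (h : τ = 1 ∨ τ = -1) (x : E) : τ * x 0 ≤ ‖x‖ := by
  have h2 : |τ * x 0| ≤ ‖x‖ := by
    rw [abs_mul, abs_one h, one_mul]
    exact abs_coord_le x 0
  exact (le_abs_self _).trans h2

theorem dist_refl_sq (x z : E) : ‖x - refl z‖ ^ 2 - ‖x - z‖ ^ 2 = 4 * x 0 * z 0 := by
  rw [norm_sq_eq3, norm_sq_eq3]
  simp only [PiLp.sub_apply, refl_zero, refl_one, refl_two]
  ring

/-- step 1 -/
theorem step1 (MV : MV_stmt) {τ : ℝ} {w : E → ℝ} (hw : SH τ w) {z : E} {ρ : ℝ} (hρ : 0 < ρ)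
    (hz : 8 * ρ ≤ τ * z 0) {y : E} (hy : ‖y - z‖ ≤ ρ) :
    3 * (∫ y in ball z ρ, w y) / (256 * k0 * ρ ^ 3) ≤ w y := by
  have hk := k0_pos
  have hcont : Continuous w := hw.smooth.continuous
  have hpos : ∀ y' ∈ ball y (4 * ρ), 0 < τ * y' 0 := by
    intro y' hy'
    rw [mem_ball, dist_eq_norm] at hy'
    have h1 := coord_lip hw.sgn y' y
    have h2 := coord_lip hw.sgn y z
    linarith
  have hmv := MV (fun y => - w y) y (4 * ρ) 0 hw.smooth.neg (by positivity) (fun y' hy' => by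
    have h1 : lap (fun y => - w y) y' = - lap w y' := lap_neg
    rw [h1]
    have := hw.super y' (hpos y' hy')
    linarith)
  have e1 : ∫ η, kk η * (fun y => - w y) (y + (4 * ρ) • η) = - ∫ η, kk η * w (y + (4 * ρ) • η) := by
    rw [← integral_neg]
    refine integral_congr_ae (Eventually.of_forall fun η => ?_)
    show kk η * (- w (y + (4 * ρ) • η)) = -(kk η * w (y + (4 * ρ) • η))
    ring
  rw [e1] at hmv
  have hkl := kk_lower hcont y (r := 4 * ρ) (by positivity)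
    (fun y' hy' => hw.nonneg y' (hpos y' hy').le)
  have hsub : ball z ρ ⊆ ball y (4 * ρ / 2) := by
    intro y' hy'
    rw [mem_ball, dist_eq_norm] at hy' ⊢
    have h1 : ‖y' - y‖ ≤ ‖y' - z‖ + ‖z - y‖ := norm_sub_le_norm_sub_add_norm_sub _ _ _
    rw [norm_sub_rev z y] at h1
    linarith
  have hmono : ∫ y in ball z ρ, w y ≤ ∫ y in ball y (4 * ρ / 2), w y := by
    refine setIntegral_mono_set (integrableOn_ball hcont _ _) ?_ (HasSubset.Subset.eventuallyLE hsub)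
    refine (ae_restrict_iff' measurableSet_ball).2 (Eventually.of_forall fun y' hy' => ?_)
    refine hw.nonneg y' (hpos y' ?_).le
    exact ball_subset_ball (by linarith) hy'
  have h5 : 3 / 4 * ((4 * ρ) ^ 3)⁻¹ * ∫ y in ball z ρ, w y ≤ k0 * w y := by
    have h6 : 3 / 4 * ((4 * ρ) ^ 3)⁻¹ * ∫ y in ball z ρ, w y ≤
        3 / 4 * ((4 * ρ) ^ 3)⁻¹ * ∫ y in ball y (4 * ρ / 2), w y :=
      mul_le_mul_of_nonneg_left hmono (by positivity)
    have h7 : k0 * (fun y => - w y) y = -(k0 * w y) := by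
      show k0 * (- w y) = -(k0 * w y)
      ring
    rw [h7] at hmv
    linarith
  rw [div_le_iff₀ (by positivity)]
  have h8 : 3 * (∫ y in ball z ρ, w y) =
      (3 / 4 * ((4 * ρ) ^ 3)⁻¹ * ∫ y in ball z ρ, w y) * (256 * ρ ^ 3) := by
    field_simp
    ring
  rw [h8]
  calc (3 / 4 * ((4 * ρ) ^ 3)⁻¹ * ∫ y in ball z ρ, w y) * (256 * ρ ^ 3) ≤
      (k0 * w y) * (256 * ρ ^ 3) := mul_le_mul_of_nonneg_right h5 (by positivity)
    _ = w y * (256 * k0 * ρ ^ 3) := by ring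

/-- step 2 -/
theorem step2 (MINU : MINU_stmt) (POLE : POLE_stmt) {τ : ℝ} {w : E → ℝ} (hw : SH τ w) {z : E}
    {ρ m : ℝ} (hρ : 0 < ρ) (hz : 8 * ρ ≤ τ * z 0) (hm : 0 ≤ m)
    (hball : ∀ y : E, ‖y - z‖ ≤ ρ → m ≤ w y) {x : E} (hx : 0 < τ * x 0) (hxz : ρ < ‖x - z‖) :
    m * ρ * (‖x - z‖⁻¹ - ‖x - refl z‖⁻¹) ≤ w x := by
  set U : Set E := {y | 0 < τ * y 0} ∩ {y | ρ < ‖y - z‖} with hU
  have c1 : Continuous (fun y : E => τ * y 0) := continuous_const.mul cont0
  have c2 : Continuous (fun y : E => ‖y - z‖) := by fun_prop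
  have hopen : IsOpen U := (isOpen_lt continuous_const c1).inter (isOpen_lt continuous_const c2)
  have hcl : ∀ y ∈ closure U, 0 ≤ τ * y 0 ∧ ρ ≤ ‖y - z‖ := by
    have hC : IsClosed ({y : E | 0 ≤ τ * y 0} ∩ {y : E | ρ ≤ ‖y - z‖}) :=
      (isClosed_le continuous_const c1).inter (isClosed_le continuous_const c2)
    have hsub : U ⊆ ({y : E | 0 ≤ τ * y 0} ∩ {y : E | ρ ≤ ‖y - z‖}) :=
      fun y hy => ⟨LT.lt.le (show 0 < τ * y 0 from hy.1), LT.lt.le (show ρ < ‖y - z‖ from hy.2)⟩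
    intro y hy
    exact hC.closure_subset_iff.2 hsub hy
  have hne : ∀ y : E, 0 ≤ τ * y 0 → ρ ≤ ‖y - z‖ → y ≠ z ∧ y ≠ refl z := by
    intro y h1 h2
    refine ⟨?_, ?_⟩
    · rintro rfl
      rw [sub_self, norm_zero] at h2
      linarith
    · rintro rfl
      rw [refl_zero] at h1
      linarith
  have hcd : ∀ y : E, 0 ≤ τ * y 0 → ρ ≤ ‖y - z‖ →
      ContDiffAt ℝ 2 (fun y => w y - m * ρ * (‖y - z‖⁻¹ - ‖y - refl z‖⁻¹)) y ∧
      lap (fun y => w y - m * ρ * (‖y - z‖⁻¹ - ‖y - refl z‖⁻¹)) y = lap w y := by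
    intro y h1 h2
    obtain ⟨n1, n2⟩ := hne y h1 h2
    obtain ⟨p1, q1⟩ := POLE z y n1
    obtain ⟨p2, q2⟩ := POLE (refl z) y n2
    have p3 : ContDiffAt ℝ 2 (fun y => ‖y - z‖⁻¹ - ‖y - refl z‖⁻¹) y := p1.sub p2
    have p4 : ContDiffAt ℝ 2 (fun y => m * ρ * (‖y - z‖⁻¹ - ‖y - refl z‖⁻¹)) y :=
      contDiffAt_const.mul p3
    refine ⟨hw.smooth.contDiffAt.sub p4, ?_⟩
    rw [lap_sub hw.smooth.contDiffAt p4, lap_const_mul _ p3, lap_sub p1 p2, q1, q2]
    ring
  have key := MINU U (fun y => w y - m * ρ * (‖y - z‖⁻¹ - ‖y - refl z‖⁻¹)) hopen ?_ ?_ ?_ ?_ ?_ x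
    ⟨hx, hxz⟩
  · have k2 : 0 ≤ w x - m * ρ * (‖x - z‖⁻¹ - ‖x - refl z‖⁻¹) := key
    linarith
  · intro y hy
    obtain ⟨h1, h2⟩ := hcl y hy
    exact (hcd y h1 h2).1.continuousAt.continuousWithinAt
  · intro y hy
    exact (hcd y (le_of_lt hy.1) (le_of_lt hy.2)).1
  · intro y hy
    rw [(hcd y (le_of_lt hy.1) (le_of_lt hy.2)).2]
    exact hw.super y hy.1
  · intro y hy
    obtain ⟨h1, h2⟩ := hcl y (frontier_subset_closure hy)
    have hnot : y ∉ U := by
      have := hy.2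
      rwa [hopen.interior_eq] at this
    show 0 ≤ w y - m * ρ * (‖y - z‖⁻¹ - ‖y - refl z‖⁻¹)
    rcases h1.eq_or_lt with h3 | h3
    · have hy0 : y 0 = 0 := by
        have h4 := sq_one hw.sgn
        have h5 : y 0 = τ * (τ * y 0) := by
          rw [← mul_assoc, h4, one_mul]
        rw [h5, ← h3, mul_zero]
      have hd := dist_refl_sq y z
      rw [hy0] at hd
      have he : ‖y - refl z‖ = ‖y - z‖ := by
        have h5 : ‖y - refl z‖ ^ 2 = ‖y - z‖ ^ 2 := by linarith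
        exact (pow_left_inj₀ (norm_nonneg _) (norm_nonneg _) (by norm_num)).1 h5
      rw [he, sub_self, mul_zero, sub_zero]
      exact hw.nonneg y h1
    · rcases h2.eq_or_lt with h4 | h4
      · have h5 := hball y h4.symm.le
        have h6 : 0 ≤ ‖y - refl z‖⁻¹ := by positivity
        have h7 : m * ρ * (‖y - z‖⁻¹ - ‖y - refl z‖⁻¹) ≤ m * ρ * ‖y - z‖⁻¹ :=
          mul_le_mul_of_nonneg_left (by linarith) (by positivity)
        have h8 : m * ρ * ‖y - z‖⁻¹ = m := by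
          rw [← h4]
          field_simp
        linarith
      · exact absurd ⟨h3, h4⟩ hnot
  · intro ε hε
    refine ⟨‖z‖ + m * ρ / ε + 1, fun y hy hyR => ?_⟩
    have h0 : 0 ≤ m * ρ / ε := by positivity
    have h1 : ‖y‖ ≤ ‖y - z‖ + ‖z‖ := by
      have := norm_add_le (y - z) z
      rwa [sub_add_cancel] at this
    have h2 : m * ρ / ε + 1 ≤ ‖y - z‖ := by linarith
    have h3 : 0 < ‖y - z‖ := by linarith
    have h4 : m * ρ * ‖y - z‖⁻¹ ≤ ε := by
      rw [← div_eq_mul_inv, div_le_iff₀ h3]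
      have h5 : m * ρ = m * ρ / ε * ε := (div_mul_cancel₀ _ hε.ne').symm
      have h6 : m * ρ / ε * ε ≤ ‖y - z‖ * ε := mul_le_mul_of_nonneg_right (by linarith) hε.le
      linarith
    have h6 : 0 ≤ ‖y - refl z‖⁻¹ := by positivity
    have h7 : m * ρ * (‖y - z‖⁻¹ - ‖y - refl z‖⁻¹) ≤ m * ρ * ‖y - z‖⁻¹ :=
      mul_le_mul_of_nonneg_left (by linarith) (by positivity)
    have h8 := hw.nonneg y (le_of_lt hy.1)
    show -ε ≤ w y - m * ρ * (‖y - z‖⁻¹ - ‖y - refl z‖⁻¹)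
    linarith

theorem proof (MV : MV_stmt) (MINU : MINU_stmt) (POLE : POLE_stmt) : LBB_stmt := by
  have hk := k0_pos
  refine ⟨3 / (128 * k0), by positivity, ?_⟩
  intro τ w z x ρ R hw hρ hz hzR hx hxR
  have hx0 : 0 < τ * x 0 := hx
  have hI : 0 ≤ ∫ y in ball z ρ, w y := by
    refine setIntegral_nonneg measurableSet_ball fun y hy => hw.nonneg y ?_
    rw [mem_ball, dist_eq_norm] at hy
    have := coord_lip hw.sgn y z
    linarith
  set I := ∫ y in ball z ρ, w y with hId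
  set m : ℝ := 3 * I / (256 * k0 * ρ ^ 3) with hm
  have hm0 : 0 ≤ m := by positivity
  have hball : ∀ y : E, ‖y - z‖ ≤ ρ → m ≤ w y := fun y hy => step1 MV hw hρ hz hy
  have hzn : 8 * ρ ≤ R := hz.trans ((coord_le hw.sgn z).trans hzR)
  have hR : 0 < R := by linarith
  have hxn : τ * x 0 ≤ R := (coord_le hw.sgn x).trans hxR
  have hcI : 3 / (128 * k0) * (τ * x 0) * I = ρ * (2 * m * ρ ^ 2 * (τ * x 0)) := by
    rw [hm]
    field_simp
    ring
  rw [hcI]
  have hgoal : 2 * m * ρ ^ 2 * (τ * x 0) ≤ R ^ 3 * w x := by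
    by_cases hxz : ‖x - z‖ ≤ ρ
    · have h1 := hball x hxz
      have h2 : 2 * ρ ^ 2 * (τ * x 0) ≤ R ^ 3 := by
        have h3 : ρ ^ 2 ≤ (R / 8) ^ 2 := by gcongr; linarith
        have h4 : ρ ^ 2 * (τ * x 0) ≤ (R / 8) ^ 2 * R := mul_le_mul h3 hxn hx0.le (by positivity)
        have h5 : 0 < R ^ 3 := by positivity
        nlinarith
      calc 2 * m * ρ ^ 2 * (τ * x 0) = m * (2 * ρ ^ 2 * (τ * x 0)) := by ring
        _ ≤ m * R ^ 3 := mul_le_mul_of_nonneg_left h2 hm0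
        _ ≤ w x * R ^ 3 := mul_le_mul_of_nonneg_right h1 (by positivity)
        _ = R ^ 3 * w x := by ring
    · rw [not_le] at hxz
      have h1 := step2 MINU POLE hw hρ hz hm0 hball hx0 hxz
      set d := ‖x - z‖ with hd
      set d' := ‖x - refl z‖ with hd'
      have hdd : d' ^ 2 - d ^ 2 = 4 * x 0 * z 0 := dist_refl_sq x z
      have hdd2 : d' ^ 2 - d ^ 2 = 4 * (τ * x 0) * (τ * z 0) := by
        rw [hdd]
        have := sq_one hw.sgn
        have e : 4 * (τ * x 0) * (τ * z 0) = (τ * τ) * (4 * x 0 * z 0) := by ring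
        rw [e, this, one_mul]
      have hdd3 : 32 * ρ * (τ * x 0) ≤ d' ^ 2 - d ^ 2 := by
        rw [hdd2]
        have h3 : 4 * (τ * x 0) * (8 * ρ) ≤ 4 * (τ * x 0) * (τ * z 0) :=
          mul_le_mul_of_nonneg_left hz (by positivity)
        linarith
      have hdp : 0 < d := by linarith
      have hdp' : 0 < d' := by
        have h3 : 0 < d' ^ 2 := by
          have : 0 < 32 * ρ * (τ * x 0) := by positivity
          nlinarith
        have h4 : 0 ≤ d' := norm_nonneg _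
        rcases h4.eq_or_lt with h | h
        · rw [← h] at h3
          norm_num at h3
        · exact h
      have hd2 : d ≤ 2 * R := by
        have := norm_sub_le x z
        linarith
      have hd2' : d' ≤ 2 * R := by
        have := norm_sub_le x (refl z)
        rw [norm_refl] at this
        linarith
      have e1 : d⁻¹ - d'⁻¹ = (d' ^ 2 - d ^ 2) / (d * d' * (d + d')) := by
        field_simp
        ring
      have e2 : 32 * ρ * (τ * x 0) / (2 * R * (2 * R) * (2 * R + 2 * R)) ≤ d⁻¹ - d'⁻¹ := by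
        rw [e1]
        apply div_le_div₀
        · have : 0 ≤ 32 * ρ * (τ * x 0) := by positivity
          linarith
        · exact hdd3
        · positivity
        · gcongr
      have h5 : m * ρ * (32 * ρ * (τ * x 0) / (2 * R * (2 * R) * (2 * R + 2 * R))) ≤ w x :=
        (mul_le_mul_of_nonneg_left e2 (by positivity)).trans h1
      calc 2 * m * ρ ^ 2 * (τ * x 0) =
          R ^ 3 * (m * ρ * (32 * ρ * (τ * x 0) / (2 * R * (2 * R) * (2 * R + 2 * R)))) := by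
            field_simp
            ring
        _ ≤ R ^ 3 * w x := mul_le_mul_of_nonneg_left h5 (by positivity)
  calc ρ * (2 * m * ρ ^ 2 * (τ * x 0)) ≤ ρ * (R ^ 3 * w x) := mul_le_mul_of_nonneg_left hgoal hρ.le
    _ = ρ * R ^ 3 * w x := by ring

end Pool.Agent.Helper19.HS3.LBB
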