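import Pool.Agent.Helper35.HS3.GoalsA

/-!
# Project HS3 (MP_66e6f4_an), packet SEG: the potential of a segment is harmonic
-/

namespace Pool.Agent.Helper19.HS3.SEG

open MeasureTheory Set Filter Topology Metric
open scoped ContDiff
open Pool.Agent.Helper35.HS3

theorem dsq (p x : E) : HasFDerivAt (fun z : E => ‖z - p‖ ^ 2)
    (2 • (innerSL ℝ (x - p)).comp (ContinuousLinearMap.id ℝ E)) x :=
  ((hasFDerivAt_id x).sub_const p).norm_sq

theorem pd_dsq (i : Fin 3) (p x : E) : pd i (fun z : E => ‖z - p‖ ^ 2) x = 2 * (x i - p i) := by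
  rw [HasFDerivAt.pd (dsq p x)]
  simp [inner_bv]

theorem cd_dsq (p x : E) : ContDiffAt ℝ 2 (fun z : E => ‖z - p‖ ^ 2) x :=
  ((contDiff_id.sub contDiff_const).norm_sq ℝ).contDiffAt

theorem lap_dsq (p x : E) : lap (fun z : E => ‖z - p‖ ^ 2) x = 6 := by
  unfold lap
  have h : ∀ i : Fin 3, pd i (pd i (fun z : E => ‖z - p‖ ^ 2)) x = 2 := by
    intro i
    have e : pd i (fun z : E => ‖z - p‖ ^ 2) = fun z => 2 * (z i - p i) := by
      funext z
      exact pd_dsq i p z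
    rw [e]
    have d1 : DifferentiableAt ℝ (fun z : E => z i) x :=
      (contDiff_coord i (n := 1)).contDiffAt.differentiableAt (by norm_num)
    have d2 : DifferentiableAt ℝ (fun z : E => z i - p i) x := d1.sub_const _
    rw [pd_const_mul 2 d2, pd_sub d1 (differentiableAt_const _), pd_coord, pd_const]
    simp
  rw [Finset.sum_congr rfl fun i _ => h i]
  simp
  norm_num

theorem gsq_dsq (p x : E) : gsq (fun z : E => ‖z - p‖ ^ 2) x = 4 * ‖x - p‖ ^ 2 := by
  unfold gsq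
  rw [Finset.sum_congr rfl fun i _ => by rw [pd_dsq i p x], norm_sq_eq, Finset.mul_sum]
  refine Finset.sum_congr rfl fun i _ => ?_
  simp only [PiLp.sub_apply]
  ring

theorem cd_dist {p x : E} (h : x ≠ p) : ContDiffAt ℝ 2 (fun z : E => ‖z - p‖) x :=
  (contDiffAt_norm ℝ (sub_ne_zero.2 h)).comp x (contDiffAt_id.sub contDiffAt_const)

theorem eq_sqrt (p : E) : (fun z : E => ‖z - p‖) = fun z : E => √(‖z - p‖ ^ 2) := by
  funext z
  rw [Real.sqrt_sq (norm_nonneg _)]

theorem pd_dist {p x : E} (h : x ≠ p) (i : Fin 3) :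
    pd i (fun z : E => ‖z - p‖) x = (x i - p i) / ‖x - p‖ := by
  have hr : 0 < ‖x - p‖ := norm_pos_iff.2 (sub_ne_zero.2 h)
  have hs : ‖x - p‖ ^ 2 ≠ 0 := by positivity
  rw [eq_sqrt p]
  have h1 := pd_comp (i := i) (H := fun t => √t) (u := fun z : E => ‖z - p‖ ^ 2)
    (Real.hasDerivAt_sqrt hs) ((cd_dsq p x).differentiableAt (by norm_num))
  rw [h1, pd_dsq, Real.sqrt_sq hr.le]
  field_simp

theorem lap_dist {p x : E} (h : x ≠ p) : lap (fun z : E => ‖z - p‖) x = 2 / ‖x - p‖ := by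
  have hr : 0 < ‖x - p‖ := norm_pos_iff.2 (sub_ne_zero.2 h)
  have hs : 0 < ‖x - p‖ ^ 2 := by positivity
  rw [eq_sqrt p]
  have h2 : HasDerivAt (fun t : ℝ => 1 / (2 * √t)) (-(1 / (4 * ‖x - p‖ ^ 3))) (‖x - p‖ ^ 2) := by
    have a1 := ((Real.hasDerivAt_sqrt hs.ne').const_mul 2)
    have a2 : (2 : ℝ) * √(‖x - p‖ ^ 2) ≠ 0 := by
      rw [Real.sqrt_sq hr.le]
      positivity
    have a3 := a1.inv a2
    have e : (fun t : ℝ => 1 / (2 * √t)) = fun t => (2 * √t)⁻¹ := by
      funext t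
      rw [one_div]
    rw [e]
    refine a3.congr_deriv ?_
    rw [Real.sqrt_sq hr.le]
    field_simp
    norm_num
  have h1 := lap_comp (H := fun t => √t) (H' := fun t => 1 / (2 * √t))
    (u := fun z : E => ‖z - p‖ ^ 2) (x := x)
    (by filter_upwards [isOpen_Ioi.mem_nhds hs] with t ht using Real.hasDerivAt_sqrt (ne_of_gt ht))
    h2 (cd_dsq p x)
  rw [h1, lap_dsq, gsq_dsq]
  simp only [Real.sqrt_sq hr.le]
  field_simp
  norm_num

theorem proof : SEG_stmt := by
  intro p q x hx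
  have hl : 0 ≤ ‖p - q‖ := norm_nonneg _
  have hxp : x ≠ p := by
    rintro rfl
    rw [sub_self, norm_zero, zero_add] at hx
    exact lt_irrefl _ hx
  have hxq : x ≠ q := by
    rintro rfl
    rw [sub_self, norm_zero, add_zero, norm_sub_rev] at hx
    exact lt_irrefl _ hx
  have hr1 : 0 < ‖x - p‖ := norm_pos_iff.2 (sub_ne_zero.2 hxp)
  have hr2 : 0 < ‖x - q‖ := norm_pos_iff.2 (sub_ne_zero.2 hxq)
  have c1 := cd_dist hxp
  have c2 := cd_dist hxq
  have cσ : ContDiffAt ℝ 2 (fun z : E => ‖z - p‖ + ‖z - q‖) x := c1.add c2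
  refine ⟨?_, ?_⟩
  · refine ContDiffAt.log ((cσ.add contDiffAt_const).div (cσ.sub contDiffAt_const) ?_) ?_
    · show ‖x - p‖ + ‖x - q‖ - ‖p - q‖ ≠ 0
      exact (sub_pos.2 hx).ne'
    · show (‖x - p‖ + ‖x - q‖ + ‖p - q‖) / (‖x - p‖ + ‖x - q‖ - ‖p - q‖) ≠ 0
      have := sub_pos.2 hx
      positivity
  · set l := ‖p - q‖ with hld
    have hder : ∀ t : ℝ, l < t → HasDerivAt (fun t => Real.log ((t + l) / (t - l)))
        (1 / (t + l) - 1 / (t - l)) t := by
      intro t ht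
      have b1 : 0 < t - l := sub_pos.2 ht
      have b2 : 0 < t + l := by linarith
      have a1 := (((hasDerivAt_id t).add_const l).div ((hasDerivAt_id t).sub_const l) b1.ne').log
        (div_pos b2 b1).ne'
      refine a1.congr_deriv ?_
      have e2 : ((fun x : ℝ => id x + l) / fun x => id x - l) t = (t + l) / (t - l) := rfl
      rw [e2]
      simp only [id]
      field_simp
    have hder2 : ∀ t : ℝ, l < t → HasDerivAt (fun t => 1 / (t + l) - 1 / (t - l))
        (-(1 / (t + l) ^ 2) + 1 / (t - l) ^ 2) t := by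
      intro t ht
      have b1 : 0 < t - l := sub_pos.2 ht
      have b2 : 0 < t + l := by linarith
      have a1 := (((hasDerivAt_id t).add_const l).inv b2.ne').sub
        (((hasDerivAt_id t).sub_const l).inv b1.ne')
      have e : (fun t : ℝ => 1 / (t + l) - 1 / (t - l)) = fun t => (t + l)⁻¹ - (t - l)⁻¹ := by
        funext t
        rw [one_div, one_div]
      rw [e]
      refine a1.congr_deriv ?_
      simp only [id]
      field_simp
      ring
    have key := lap_comp (H := fun t => Real.log ((t + l) / (t - l)))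
      (H' := fun t => 1 / (t + l) - 1 / (t - l))
      (u := fun z : E => ‖z - p‖ + ‖z - q‖) (x := x)
      (by filter_upwards [isOpen_Ioi.mem_nhds hx] with t ht using hder t ht)
      (hder2 _ hx) cσ
    rw [key, lap_add c1 c2, lap_dist hxp, lap_dist hxq]
    have hg : gsq (fun z : E => ‖z - p‖ + ‖z - q‖) x =
        ((‖x - p‖ + ‖x - q‖) ^ 2 - l ^ 2) / (‖x - p‖ * ‖x - q‖) := by
      unfold gsq
      have h1 : ∀ i : Fin 3, pd i (fun z : E => ‖z - p‖ + ‖z - q‖) x =
          (x i - p i) / ‖x - p‖ + (x i - q i) / ‖x - q‖ := by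
        intro i
        rw [pd_add (c1.differentiableAt (by norm_num)) (c2.differentiableAt (by norm_num)),
          pd_dist hxp, pd_dist hxq]
      rw [Finset.sum_congr rfl fun i _ => by rw [h1 i], Fin.sum_univ_three]
      have n1 := norm_sq_eq3 (x - p)
      have n2 := norm_sq_eq3 (x - q)
      have n3 := norm_sq_eq3 (p - q)
      simp only [PiLp.sub_apply] at n1 n2 n3
      rw [← hld] at n3
      rw [eq_div_iff (by positivity)]
      have r1 : (‖x - p‖ + ‖x - q‖) ^ 2 - l ^ 2 = ‖x - p‖ ^ 2 + ‖x - q‖ ^ 2 - l ^ 2 +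
          2 * (‖x - p‖ * ‖x - q‖) := by ring
      rw [r1]
      have r2 : (((x 0 - p 0) / ‖x - p‖ + (x 0 - q 0) / ‖x - q‖) ^ 2 +
          ((x 1 - p 1) / ‖x - p‖ + (x 1 - q 1) / ‖x - q‖) ^ 2 +
          ((x 2 - p 2) / ‖x - p‖ + (x 2 - q 2) / ‖x - q‖) ^ 2) * (‖x - p‖ * ‖x - q‖) =
          ((x 0 - p 0) ^ 2 + (x 1 - p 1) ^ 2 + (x 2 - p 2) ^ 2) * (‖x - q‖ / ‖x - p‖) +
          ((x 0 - q 0) ^ 2 + (x 1 - q 1) ^ 2 + (x 2 - q 2) ^ 2) * (‖x - p‖ / ‖x - q‖) +
          2 * ((x 0 - p 0) * (x 0 - q 0) + (x 1 - p 1) * (x 1 - q 1) +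
            (x 2 - p 2) * (x 2 - q 2)) := by
        field_simp
        ring
      rw [r2, ← n1, ← n2]
      have r3 : ‖x - p‖ ^ 2 * (‖x - q‖ / ‖x - p‖) = ‖x - p‖ * ‖x - q‖ := by
        field_simp
      have r4 : ‖x - q‖ ^ 2 * (‖x - p‖ / ‖x - q‖) = ‖x - p‖ * ‖x - q‖ := by
        field_simp
      rw [r3, r4, n3, n1, n2]
      ring
    rw [hg]
    have b1 : 0 < ‖x - p‖ + ‖x - q‖ - l := sub_pos.2 hx
    have b2 : 0 < ‖x - p‖ + ‖x - q‖ + l := by linarith
    generalize ‖x - p‖ = r1 at *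
    generalize ‖x - q‖ = r2 at *
    beta_reduce
    field_simp
    ring

end Pool.Agent.Helper19.HS3.SEG
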